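import Pool.Agent.W_ff1001_h94.Final

/-!
# Integrality of the sums attached to Ramanujan's series for `(10k+1)/12^(4k)`

For `n ≥ 2` let `a n = T n / (2 n (2n+1) C(2n,n))`, where
`T n = ∑_{k<n} (10k+1) (4k)!/(k!)^4 (12^4)^(n-1-k)`.
If `2n+1` is not a power of 3, then `a n` is an integer; if `2n+1` is a power of 3, then `3 a n`
is an integer not divisible by 3.

Idea of the proof.  The primes 2 and 3 are treated by digit sums.  For a prime `p ≥ 5` a digit
induction reduces the claim to the divisibility by `p n C(2n,n)` of the truncated sum with `p n`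
terms.  Such a sum is reduced to a sum with `n` terms by a Frobenius matrix (p-adic Gamma function
and telescoping).  For `p ≥ 7` this matrix commutes at the special point with the matrix of an
isogeny of degree 5, of which `(1, 10, 0)` is a left eigenvector with a simple eigenvalue.  For
`p = 5` the isogeny itself is a lift of Frobenius and the Frobenius matrix equals the matrix of
the isogeny; the special point is at the boundary of convergence, and a count of the powers of 5
in the coefficients of a polynomial numerator gives the divisibility.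
-/

namespace Pool.Agent.Results.MP_ff1001_nt.Integrality

open Finset

/-- `M k = (4k)! / (k!)^4`, the multinomial coefficient. -/
def M (k : ℕ) : ℚ := ((4 * k).factorial : ℚ) / (k.factorial : ℚ) ^ 4

/-- `T n = ∑_{k=0}^{n-1} (10k+1) M(k) (12^4)^(n-1-k)`. -/
def T (n : ℕ) : ℚ := ∑ k ∈ range n, (10 * (k : ℚ) + 1) * M k * ((12 : ℚ) ^ 4) ^ (n - 1 - k)

/-- `a n = T n / (2 n (2n+1) C(2n,n))`. -/
def a (n : ℕ) : ℚ := T n / (2 * (n : ℚ) * (2 * (n : ℚ) + 1) * ((2 * n).choose n : ℚ))

theorem M_eq (k : ℕ) : M k = (FF1001.Mn k : ℚ) := by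
  unfold M
  have h := FF1001.Mn_fact k
  have hk : ((k.factorial : ℚ)) ^ 4 ≠ 0 := pow_ne_zero _ (by exact_mod_cast k.factorial_ne_zero)
  rw [div_eq_iff hk]
  exact_mod_cast h.symm

theorem T_eq (n : ℕ) : T n = (FF1001.T n : ℚ) := by
  unfold T
  rw [FF1001.T_eq_sum]
  push_cast
  refine sum_congr rfl fun k _ => ?_
  rw [M_eq]
  norm_num

theorem a_eq (n : ℕ) : a n = (FF1001.T n : ℚ) / ((2 * FF1001.Dn n : ℕ) : ℚ) := by
  unfold a
  rw [T_eq]
  congr 1
  unfold FF1001.Dn
  rw [Nat.centralBinom_eq_two_mul_choose]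
  push_cast
  ring

/-- For every `n ≥ 2`: if `2n+1` is not a power of 3, then `a n` is an integer, and if `2n+1` is
a power of 3, then `3 a n` is an integer that is not divisible by 3. -/
theorem result (n : ℕ) (hn : 2 ≤ n) :
    ((∀ m : ℕ, 2 * n + 1 ≠ 3 ^ m) → ∃ z : ℤ, a n = (z : ℚ)) ∧
    ((∃ m : ℕ, 2 * n + 1 = 3 ^ m) → ∃ z : ℤ, 3 * a n = (z : ℚ) ∧ ¬ (3 : ℤ) ∣ z) := by
  have hD : ((2 * FF1001.Dn n : ℕ) : ℚ) ≠ 0 := by
    exact_mod_cast mul_ne_zero (by norm_num) (FF1001.Dn_ne n (by omega))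
  constructor
  · intro h
    obtain ⟨z, hz⟩ := FF1001.main_dvd n hn h
    refine ⟨(z : ℤ), ?_⟩
    rw [a_eq, div_eq_iff hD, hz]
    push_cast
    ring
  · rintro ⟨m, hm⟩
    obtain ⟨⟨z, hz⟩, h2⟩ := FF1001.main_dvd' n m hn hm
    refine ⟨(z : ℤ), ?_, ?_⟩
    · rw [a_eq, ← mul_div_assoc, div_eq_iff hD]
      have hz' : (3 : ℚ) * (FF1001.T n : ℚ) = ((2 * FF1001.Dn n : ℕ) : ℚ) * (z : ℚ) := by
        exact_mod_cast hz
      rw [hz']
      push_cast
      ring
    · intro h3
      have h4 : (3 : ℕ) ∣ z := by exact_mod_cast h3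
      obtain ⟨y, rfl⟩ := h4
      exact h2 ⟨y, by rw [hz]; ring⟩

end Pool.Agent.Results.MP_ff1001_nt.Integrality
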